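import Pool.Agent.Helper57.V1b

/-!
For every `l` and all large `n` there is `k` with `max 1 l ≤ k ≤ (log n) ^ 16` such that at least two primes divide
`n + k` and none of `n, ..., n + k - 1`.
-/

set_option autoImplicit false

namespace Pool.Agent.Results.MP_6090df_nt.TwoNewPrimes

/-- For every `l`, all large `n` have some `k` with `max 1 l ≤ k ≤ (log n) ^ 16` and `v(n;k) ≥ 2`: at least two primes
divide `n + k` and none of `n, ..., n + k - 1`. -/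
theorem result (l : ℕ) : ∃ N : ℕ, ∀ n : ℕ, N ≤ n → ∃ k : ℕ, 1 ≤ k ∧ l ≤ k ∧ k ≤ Nat.log 2 n ^ 16 ∧
    2 ≤ {p : ℕ | p.Prime ∧ p ∣ n + k ∧ ∀ i : ℕ, i < k → ¬ p ∣ n + i}.ncard := by
  obtain ⟨N, hN⟩ := Pool.Agent.Helper57.V1.exists_two_primes l
  refine ⟨N, fun n hn => ?_⟩
  obtain ⟨k, h1, h2, h3, p, q, hp, hq, hpk, hqk, hkp, hkq, hne⟩ := hN n hn
  refine ⟨k, h1, h2, h3, ?_⟩
  have hfin : {p : ℕ | p.Prime ∧ p ∣ n + k ∧ ∀ i : ℕ, i < k → ¬ p ∣ n + i}.Finite := by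
    apply Set.Finite.subset (n + k).primeFactors.finite_toSet
    intro r hr
    rw [Finset.mem_coe, Nat.mem_primeFactors]
    exact ⟨hr.1, hr.2.1, by omega⟩
  have hmem : ∀ r : ℕ, r.Prime → r ∣ n + k → k < r →
      r ∈ {p : ℕ | p.Prime ∧ p ∣ n + k ∧ ∀ i : ℕ, i < k → ¬ p ∣ n + i} := by
    intro r hr hrk hkr
    refine ⟨hr, hrk, fun i hi hdvd => ?_⟩
    have h4 := Nat.dvd_sub hrk hdvd
    have h5 : n + k - (n + i) = k - i := by omega
    rw [h5] at h4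
    have h6 := Nat.le_of_dvd (by omega) h4
    omega
  exact (Set.one_lt_ncard hfin).2 ⟨p, hmem p hp hpk hkp, q, hmem q hq hqk hkq, hne⟩

end Pool.Agent.Results.MP_6090df_nt.TwoNewPrimes
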